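import Pool.Agent.Results.MP_4b6139_gt.NotStronglyP

/-!
# Strong P-embedding fails for two-valued maps, with a Lindelöf Čech-complete whole space

Stronger form of `NotStronglyP` (MP_4b6139_gt, Q1).  The whole space `X` is the product of the
one-point compactification of a discrete space with the space of irrational numbers, so it is
itself Lindelöf and Čech-complete; the test space `Y` is paracompact Hausdorff and maps injectively
to the real line; and `A × Y` splits into two closed subsets of `X × Y` which have no disjoint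
neighbourhoods, so some two-valued continuous map on `A × Y` does not extend to `X × Y`, whatever
Hausdorff space the two values belong to.
-/

set_option autoImplicit false

namespace Pool.Agent.Results.MP_4b6139_gt.OpenSeparationFails

open Topology Filter
open NotStronglyP

universe u v

/-- The two pieces of `A × Y` have no disjoint neighbourhoods. -/
theorem no_sep (U V : Set ((OnePoint D × P) × ML)) (hU : IsOpen U) (hV : IsOpen V)
    (hdisj : Disjoint U V)
    (hE1 : ∀ z ∈ A ×ˢ (Set.univ : Set ML), g z = 1 → z ∈ U)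
    (hE0 : ∀ z ∈ A ×ˢ (Set.univ : Set ML), g z = 0 → z ∈ V) : False := by
  have h1 : ∀ p : P, ∃ n : ℕ, ∀ p' : P, dist (p' : ℝ) (p : ℝ) < 1 / ((n : ℝ) + 1) →
      (((OnePoint.some (toD p), p'), toML p) : (OnePoint D × P) × ML) ∈ U := by
    intro p
    have hmem : (((OnePoint.some (toD p), p), toML p) : (OnePoint D × P) × ML) ∈
        (A ×ˢ (Set.univ : Set ML)) := ⟨Or.inr rfl, trivial⟩
    have hval : g ((OnePoint.some (toD p), p), toML p) = 1 := by
      unfold g
      rw [if_pos]
      exact ⟨rfl, rfl⟩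
    have hcont : Continuous (fun p' : P =>
        (((OnePoint.some (toD p), p'), toML p) : (OnePoint D × P) × ML)) := by fun_prop
    have hev : ∀ᶠ p' in 𝓝 p,
        (((OnePoint.some (toD p), p'), toML p) : (OnePoint D × P) × ML) ∈ U :=
      hcont.continuousAt.eventually_mem (hU.mem_nhds (hE1 _ hmem hval))
    obtain ⟨ε, hε, hball⟩ := Metric.eventually_nhds_iff.1 hev
    obtain ⟨n, hn⟩ := exists_nat_one_div_lt hε
    refine ⟨n, fun p' hp' => hball ?_⟩
    exact lt_trans hp' hn
  choose N hN using h1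
  -- Baire
  let f : ℕ ⊕ ℚ → Set ℝ := fun i => match i with
    | Sum.inl n => closure {x : ℝ | ∃ h : Irrational x, N ⟨x, h⟩ ≤ n}
    | Sum.inr q => {(q : ℝ)}
  have hfc : ∀ i, IsClosed (f i) := by
    rintro (n | q)
    · exact isClosed_closure
    · exact isClosed_singleton
  have hfu : ⋃ i, f i = Set.univ := by
    rw [Set.eq_univ_iff_forall]
    intro x
    rw [Set.mem_iUnion]
    by_cases hx : Irrational x
    · exact ⟨Sum.inl (N ⟨x, hx⟩), subset_closure ⟨hx, le_rfl⟩⟩
    · have : ∃ q : ℚ, (q : ℝ) = x := by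
        have := hx
        unfold Irrational at this
        push Not at this
        simpa using this
      obtain ⟨q, hq⟩ := this
      exact ⟨Sum.inr q, hq.symm⟩
  obtain ⟨i, hi⟩ := nonempty_interior_of_iUnion_of_closed hfc hfu
  rcases i with n | q
  swap
  · have : interior ({(q : ℝ)} : Set ℝ) = ∅ := interior_singleton _
    change (interior ({(q : ℝ)} : Set ℝ)).Nonempty at hi
    rw [this] at hi
    exact Set.not_nonempty_empty hi
  obtain ⟨x, hx⟩ := hi
  obtain ⟨ε, hε, hball⟩ := Metric.isOpen_iff.1 isOpen_interior x hx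
  set δ : ℝ := min ε (1 / (2 * ((n : ℝ) + 1))) with hδ
  have hn1 : (0 : ℝ) < (n : ℝ) + 1 := by positivity
  have hδ0 : 0 < δ := lt_min hε (by positivity)
  -- rational in the ball
  obtain ⟨q, hq1, hq2⟩ := exists_rat_btwn (show x < x + δ by linarith)
  obtain ⟨r, hr, hr1, hr2⟩ := exists_irrational_btwn (show x < x + δ by linarith)
  let p0 : P := ⟨r, hr⟩
  have hqn : ¬ Irrational ((q : ℚ) : ℝ) := by
    simp [Irrational]
  have hmem : (((OnePoint.infty, p0), toML q) : (OnePoint D × P) × ML) ∈
        (A ×ˢ (Set.univ : Set ML)) := ⟨Or.inl rfl, trivial⟩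
  have hval : g ((OnePoint.infty, p0), toML q) = 0 := by
    unfold g
    rw [if_neg]
    rintro ⟨h, -⟩
    exact OnePoint.infty_ne_coe _ h
  have hcont : Continuous (fun w : OnePoint D × ML =>
      (((w.1, p0), w.2) : (OnePoint D × P) × ML)) := by fun_prop
  have hev : ∀ᶠ w in 𝓝 ((OnePoint.infty, toML q) : OnePoint D × ML),
      (((w.1, p0), w.2) : (OnePoint D × P) × ML) ∈ V :=
    hcont.continuousAt.eventually_mem (hV.mem_nhds (hE0 _ hmem hval))
  rw [nhds_prod_eq] at hev
  obtain ⟨S, hS, T, hT, hST⟩ := Filter.mem_prod_iff.1 hev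
  -- S contains all but finitely many
  have hSfin : ({d : D | OnePoint.some d ∉ S}).Finite := by
    obtain ⟨S', hS'S, hS'o, hinf⟩ := mem_nhds_iff.1 hS
    have := (OnePoint.isOpen_iff_of_mem hinf).1 hS'o
    obtain ⟨hcl, hcomp⟩ := this
    have hfin := hcomp.finite_of_discrete
    refine hfin.subset ?_
    intro d hd
    simp only [Set.mem_compl_iff, Set.mem_preimage]
    intro h
    exact hd (hS'S h)
  have hT' : (show Set ℝ from T) ∈ 𝓝 (q : ℝ) := nhds_rat q hqn T hT
  have hST' : ∀ (k : OnePoint D) (y : ML), k ∈ S → y ∈ T →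
      (((k, p0), y) : (OnePoint D × P) × ML) ∈ V :=
    fun k y hk hy => hST (Set.mk_mem_prod hk hy)
  -- open nbhd of q inside ball
  have hballx : Metric.ball x δ ⊆ closure {x : ℝ | ∃ h : Irrational x, N ⟨x, h⟩ ≤ n} := by
    intro z hz
    apply interior_subset
    exact hball (Metric.ball_subset_ball (min_le_left _ _) hz)
  have hqball : (q : ℝ) ∈ Metric.ball x δ := by
    rw [Metric.mem_ball, Real.dist_eq, abs_lt]
    constructor <;> linarith
  have hrball : r ∈ Metric.ball x δ := by
    rw [Metric.mem_ball, Real.dist_eq, abs_lt]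
    constructor <;> linarith
  have hW : interior (show Set ℝ from T) ∩ Metric.ball x δ ∈ 𝓝 (q : ℝ) :=
    Filter.inter_mem (interior_mem_nhds.2 hT') (Metric.isOpen_ball.mem_nhds hqball)
  -- remove finitely many points
  let Fin : Set ℝ := Subtype.val '' ({d : D | OnePoint.some d ∉ S} : Set {x : ℝ // Irrational x})
  have hFin : Fin.Finite := Set.Finite.image _ hSfin
  have hWo : IsOpen ((interior (show Set ℝ from T) ∩ Metric.ball x δ) \ Fin) :=
    (isOpen_interior.inter Metric.isOpen_ball).sdiff hFin.isClosed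
  have hqFin : (q : ℝ) ∉ Fin := by
    rintro ⟨d, -, hd⟩
    exact hqn (hd ▸ d.2)
  have hqW : (q : ℝ) ∈ ((interior (show Set ℝ from T) ∩ Metric.ball x δ) \ Fin) :=
    ⟨mem_of_mem_nhds hW, hqFin⟩
  have hqcl : (q : ℝ) ∈ closure {x : ℝ | ∃ h : Irrational x, N ⟨x, h⟩ ≤ n} := hballx hqball
  obtain ⟨z, ⟨⟨hzT, hzb⟩, hzF⟩, hzirr, hzN⟩ := mem_closure_iff.1 hqcl _ hWo hqW
  let pz : P := ⟨z, hzirr⟩
  have hzS : OnePoint.some (toD pz) ∈ S := by
    by_contra hcon
    exact hzF ⟨pz, hcon, rfl⟩
  have hlt : (((OnePoint.some (toD pz), p0), toML z) : (OnePoint D × P) × ML) ∈ V :=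
    hST' _ _ hzS (interior_subset hzT : z ∈ (show Set ℝ from T))
  have hgt : (((OnePoint.some (toD pz), p0), toML z) : (OnePoint D × P) × ML) ∈ U := by
    apply hN pz p0
    have h3 : dist r z < 1 / ((n : ℝ) + 1) := by
      have h4 : dist r x < δ := hrball
      have h5 : dist z x < δ := hzb
      have h6 : dist r z ≤ dist r x + dist z x := dist_triangle_right r z x
      have h7 : δ ≤ 1 / (2 * ((n : ℝ) + 1)) := min_le_right _ _
      have h8 : 1 / (2 * ((n : ℝ) + 1)) + 1 / (2 * ((n : ℝ) + 1)) = 1 / ((n : ℝ) + 1) := by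
        field_simp; norm_num
      linarith
    refine lt_of_lt_of_le h3 ?_
    apply one_div_le_one_div_of_le (by positivity)
    have : ((N pz : ℕ) : ℝ) ≤ (n : ℝ) := by exact_mod_cast hzN
    linarith
  exact Set.disjoint_left.1 hdisj hgt hlt

/-! ### The whole space is Čech-complete and Lindelöf -/

theorem cech_X : CechComplete (OnePoint D × P) := by
  refine ⟨inferInstance, ?_⟩
  let j : OnePoint D × P → OnePoint ℝ := fun a => ((a.2 : ℝ) : OnePoint ℝ)
  have hj : Continuous j :=
    OnePoint.continuous_coe.comp (continuous_subtype_val.comp continuous_snd)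
  let G : Set (OnePoint ℝ) := {OnePoint.infty}ᶜ ∩ ⋂ q : ℚ, {((q : ℝ) : OnePoint ℝ)}ᶜ
  have hG : IsGδ G :=
    isOpen_compl_singleton.isGδ.inter (IsGδ.iInter fun q => isOpen_compl_singleton.isGδ)
  apply gdelta_of j hj G hG
  · intro a
    refine ⟨OnePoint.coe_ne_infty _, Set.mem_iInter.2 fun q hq => ?_⟩
    have h1 : ((a.2 : ℝ)) = (q : ℝ) := OnePoint.coe_injective hq
    exact a.2.2 ⟨q, h1.symm⟩
  · intro f z hz hf
    obtain ⟨hz1, hz2⟩ := hz
    induction z using OnePoint.rec with
    | infty => exact absurd rfl hz1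
    | coe r =>
      have hr : Irrational r := by
        rintro ⟨q, hq⟩
        apply Set.mem_iInter.1 hz2 q
        rw [hq]
        rfl
      have h1 : Tendsto (fun a : OnePoint D × P => (a.2 : ℝ)) f (𝓝 r) :=
        (OnePoint.isOpenEmbedding_coe.tendsto_nhds_iff).2 hf
      have h2 : Tendsto (fun a : OnePoint D × P => a.2) f (𝓝 (⟨r, hr⟩ : P)) :=
        tendsto_subtype_rng.2 h1
      have h3 : ∃ k : OnePoint D, Tendsto (fun a : OnePoint D × P => a.1) f (𝓝 k) := by
        obtain ⟨k, -, hk⟩ := (isCompact_univ (X := OnePoint D)).ultrafilter_le_nhds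
          (f.map fun a : OnePoint D × P => a.1) (by simp)
        exact ⟨k, hk⟩
      obtain ⟨k, hk⟩ := h3
      have h4 : Tendsto (fun a : OnePoint D × P => a) f (𝓝 (k, (⟨r, hr⟩ : P))) :=
        hk.prodMk_nhds h2
      exact ⟨_, h4⟩

/-- The product of a compact and a Lindelöf space is Lindelöf. -/
theorem lindelof_prod {C Q : Type*} [TopologicalSpace C] [TopologicalSpace Q] [CompactSpace C]
    [LindelofSpace Q] : LindelofSpace (C × Q) := by
  refine ⟨isLindelof_of_countable_subcover fun {ι} W hW hcov => ?_⟩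
  have h1 : ∀ q : Q, ∃ t : Finset ι, ∃ v : Set Q, IsOpen v ∧ q ∈ v ∧
      (Set.univ : Set C) ×ˢ v ⊆ ⋃ i ∈ t, W i := by
    intro q
    have hK : IsCompact ((Set.univ : Set C) ×ˢ ({q} : Set Q)) :=
      isCompact_univ.prod isCompact_singleton
    obtain ⟨t, ht⟩ := hK.elim_finite_subcover W hW (Set.subset_univ _ |>.trans hcov)
    obtain ⟨u, v, hu, hv, hCu, hqv, huv⟩ := generalized_tube_lemma (isCompact_univ (X := C))
      (isCompact_singleton (x := q)) (isOpen_biUnion fun i _ => hW i) ht
    refine ⟨t, v, hv, hqv rfl, ?_⟩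
    refine (Set.prod_mono hCu subset_rfl).trans huv
  choose t v hv hqv htv using h1
  obtain ⟨r, hr, hrc⟩ := (isLindelof_univ (X := Q)).elim_countable_subcover v hv
    (fun q _ => Set.mem_iUnion.2 ⟨q, hqv q⟩)
  refine ⟨⋃ q ∈ r, (t q : Set ι), hr.biUnion fun q _ => (t q).countable_toSet, ?_⟩
  rintro ⟨c, q⟩ -
  obtain ⟨q', hq', hqq⟩ := Set.mem_iUnion₂.1 (hrc (Set.mem_univ q))
  obtain ⟨i, hi, hmem⟩ := Set.mem_iUnion₂.1 (htv q' (Set.mk_mem_prod (Set.mem_univ c) hqq))
  exact Set.mem_iUnion₂.2 ⟨i, Set.mem_iUnion₂.2 ⟨q', hq', hi⟩, hmem⟩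

theorem lindelof_X : LindelofSpace (OnePoint D × P) := lindelof_prod

/-! ### The Michael line is paracompact -/

theorem paracompact_ML : ParacompactSpace ML := by
  refine ⟨fun α s hs hcov => ?_⟩
  let s' : α → Set ℝ := fun a => interior (show Set ℝ from s a)
  let W : Set ℝ := ⋃ a, s' a
  have hWo : IsOpen W := isOpen_iUnion fun a => isOpen_interior
  have hrat : ∀ x : ℝ, ¬ Irrational x → x ∈ W := by
    intro x hx
    have : (toML x) ∈ ⋃ a, s a := by rw [hcov]; trivial
    obtain ⟨a, ha⟩ := Set.mem_iUnion.1 this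
    have h1 : (show Set ℝ from s a) ∈ 𝓝 x := nhds_rat x hx _ ((hs a).mem_nhds ha)
    exact Set.mem_iUnion.2 ⟨a, mem_interior_iff_mem_nhds.2 h1⟩
  obtain ⟨v, hvo, hvc, hvl, hvs⟩ := precise_refinement (X := W)
    (fun a => (Subtype.val ⁻¹' s' a : Set W)) (fun a => isOpen_interior.preimage
      continuous_subtype_val) (by
        rw [Set.eq_univ_iff_forall]
        rintro ⟨x, hx⟩
        obtain ⟨a, ha⟩ := Set.mem_iUnion.1 hx
        exact Set.mem_iUnion.2 ⟨a, ha⟩)
  have hvo' : ∀ a, IsOpen (Subtype.val '' v a : Set ℝ) := fun a =>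
    hWo.isOpenEmbedding_subtypeVal.isOpenMap _ (hvo a)
  refine ⟨α ⊕ {x : ℝ // x ∉ W}, fun b => match b with
    | Sum.inl a => ofML ⁻¹' (Subtype.val '' v a : Set ℝ)
    | Sum.inr x => {toML x.1}, ?_, ?_, ?_, ?_⟩
  · rintro (a | x)
    · exact isOpen_of_real _ (hvo' a)
    · exact isOpen_irr x.1 (by
        by_contra hx
        exact x.2 (hrat _ hx))
  · rw [Set.eq_univ_iff_forall]
    intro y
    by_cases hy : ofML y ∈ W
    · have : (⟨ofML y, hy⟩ : W) ∈ ⋃ a, v a := by rw [hvc]; trivial
      obtain ⟨a, ha⟩ := Set.mem_iUnion.1 this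
      exact Set.mem_iUnion.2 ⟨Sum.inl a, ⟨_, ha, rfl⟩⟩
    · exact Set.mem_iUnion.2 ⟨Sum.inr ⟨ofML y, hy⟩, rfl⟩
  · intro y
    by_cases hy : ofML y ∈ W
    · obtain ⟨M, hM, hMf⟩ := hvl ⟨ofML y, hy⟩
      refine ⟨ofML ⁻¹' (Subtype.val '' M : Set ℝ), ?_, ?_⟩
      · have h1 : (Subtype.val '' M : Set ℝ) ∈ 𝓝 (ofML y) :=
          hWo.isOpenEmbedding_subtypeVal.isOpenMap.image_mem_nhds hM
        exact continuous_ofML.continuousAt.preimage_mem_nhds h1
      · refine (hMf.image Sum.inl).subset ?_
        rintro (a | x) ⟨z, hz1, hz2⟩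
        · refine ⟨a, ?_, rfl⟩
          obtain ⟨w, hw, hwz⟩ := hz1
          obtain ⟨w', hw', hwz'⟩ := hz2
          have : w = w' := Subtype.ext (hwz.trans hwz'.symm)
          subst this
          exact ⟨w, hw, hw'⟩
        · exfalso
          have hzx : z = toML x.1 := hz1
          subst hzx
          obtain ⟨w', hw', hwz'⟩ := hz2
          have h9 : (w' : ℝ) = x.1 := hwz'
          exact x.2 (h9 ▸ w'.2)
    · have hirr : Irrational (ofML y) := by
        by_contra hx
        exact hy (hrat _ hx)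
      refine ⟨{y}, (isOpen_irr (ofML y) hirr).mem_nhds rfl, ?_⟩
      refine (Set.finite_singleton (Sum.inr ⟨ofML y, hy⟩ : α ⊕ {x : ℝ // x ∉ W})).subset ?_
      rintro (a | x) ⟨z, hz1, hz2⟩
      · exfalso
        have hzy : z = y := hz2
        subst hzy
        obtain ⟨w, hw, hwz⟩ := hz1
        exact hy (hwz ▸ w.2)
      · have hzy : z = y := hz2
        have hzx : z = toML x.1 := hz1
        have : x = ⟨ofML y, hy⟩ := Subtype.ext (hzx.symm.trans hzy)
        rw [this]
        rfl
  · rintro (a | x)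
    · refine ⟨a, ?_⟩
      rintro y ⟨w, hw, hwy⟩
      have h1 := hvs a hw
      have h2 : (w : ℝ) ∈ (show Set ℝ from s a) := interior_subset h1
      rw [hwy] at h2
      exact h2
    · have : (toML x.1) ∈ ⋃ a, s a := by rw [hcov]; trivial
      obtain ⟨a, ha⟩ := Set.mem_iUnion.1 this
      exact ⟨a, Set.singleton_subset_iff.2 ha⟩

/-- The closed sets `S` and `T` partition `A × Y`, they have no disjoint neighbourhoods, and for any
two different points `a`, `b` of a Hausdorff space `E` the map on `A × Y` with value `a` on `S` and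
value `b` on `T` is continuous and has no continuous extension `X × Y → E`. -/
def BadPartition {X Y : Type} [TopologicalSpace X] [TopologicalSpace Y] (A : Set X)
    (S T : Set (X × Y)) : Prop :=
  IsClosed S ∧ IsClosed T ∧ Disjoint S T ∧ S ∪ T = A ×ˢ (Set.univ : Set Y) ∧
    ¬ SeparatedNhds S T ∧
    ∀ (E : Type v) [TopologicalSpace E] [T2Space E] (a b : E), a ≠ b →
      ∃ f : (A ×ˢ (Set.univ : Set Y) : Set (X × Y)) → E, Continuous f ∧
        (∀ z, (z.1 ∈ S → f z = a) ∧ (z.1 ∈ T → f z = b)) ∧
        ¬ ∃ F : X × Y → E, Continuous F ∧ ∀ z, F z.1 = f z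

theorem bad : BadPartition.{v} A {z | z ∈ A ×ˢ (Set.univ : Set ML) ∧ g z = 1}
    {z | z ∈ A ×ˢ (Set.univ : Set ML) ∧ g z = 0} := by
  have hA : IsClosed (A ×ˢ (Set.univ : Set ML)) := A_closed.prod isClosed_univ
  have h01 : ∀ z, g z = 1 ∨ g z = 0 := by
    intro z
    unfold g
    split_ifs
    · exact Or.inl rfl
    · exact Or.inr rfl
  have hnot : ¬ SeparatedNhds {z | z ∈ A ×ˢ (Set.univ : Set ML) ∧ g z = 1}
      {z | z ∈ A ×ˢ (Set.univ : Set ML) ∧ g z = 0} := by
    rintro ⟨U, V, hU, hV, hSU, hTV, hUV⟩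
    exact no_sep U V hU hV hUV (fun z hz h => hSU ⟨hz, h⟩) (fun z hz h => hTV ⟨hz, h⟩)
  refine ⟨?_, ?_, ?_, ?_, hnot, ?_⟩
  · exact g_cont.preimage_isClosed_of_isClosed hA (isClosed_singleton (x := (1 : ℝ)))
  · exact g_cont.preimage_isClosed_of_isClosed hA (isClosed_singleton (x := (0 : ℝ)))
  · rw [Set.disjoint_left]
    rintro z ⟨-, h1⟩ ⟨-, h2⟩
    rw [h1] at h2
    exact one_ne_zero h2
  · ext z
    constructor
    · rintro (h | h)
      · exact h.1
      · exact h.1
    · intro h
      rcases h01 z with h1 | h1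
      · exact Or.inl ⟨h, h1⟩
      · exact Or.inr ⟨h, h1⟩
  · intro E _ _ a b hab
    classical
    have hg : Continuous fun z : (A ×ˢ (Set.univ : Set ML) : Set ((OnePoint D × P) × ML)) =>
        g z.1 := continuousOn_iff_continuous_domRestrict.1 g_cont
    refine ⟨fun z => if g z.1 = 1 then a else b, ?_, ?_, ?_⟩
    · apply IsLocallyConstant.continuous
      rw [IsLocallyConstant.iff_eventually_eq]
      intro z
      have h2 : ∀ᶠ w in 𝓝 z, dist (g w.1) (g z.1) < 1 / 2 :=
        hg.continuousAt.eventually (Metric.ball_mem_nhds _ (by norm_num))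
      filter_upwards [h2] with w hw
      have h3 : g w.1 = g z.1 := by
        rcases h01 w.1 with h | h <;> rcases h01 z.1 with h' | h' <;> rw [h, h'] at hw ⊢
        · exfalso
          rw [Real.dist_eq] at hw
          norm_num at hw
        · exfalso
          rw [Real.dist_eq] at hw
          norm_num at hw
      rw [h3]
    · intro z
      constructor
      · intro h
        exact if_pos h.2
      · intro h
        refine if_neg ?_
        rw [h.2]
        norm_num
    · rintro ⟨F, hF, hFe⟩
      obtain ⟨U, V, hU, hV, haU, hbV, hUV⟩ := t2_separation hab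
      apply hnot
      refine ⟨F ⁻¹' U, F ⁻¹' V, hU.preimage hF, hV.preimage hF, ?_, ?_, hUV.preimage F⟩
      · rintro z ⟨hz, h⟩
        show F z ∈ U
        have := hFe ⟨z, hz⟩
        simp only [if_pos h] at this
        rw [this]
        exact haU
      · rintro z ⟨hz, h⟩
        show F z ∈ V
        have := hFe ⟨z, hz⟩
        have h' : ¬ g z = 1 := by rw [h]; norm_num
        simp only [if_neg h'] at this
        rw [this]
        exact hbV

/-- **Stronger disproof.** There are a discrete space `D`, a closed subset `A` of the product `X` of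
the one-point compactification of `D` with the space of irrational numbers, and a paracompact
Hausdorff space `Y` with an injective continuous map to the real line, such that `X` and `A` are
Čech-complete and Lindelöf, `A` is P-embedded in `X`, and `A × Y` is the union of two disjoint
closed subsets of `X × Y` without disjoint neighbourhoods; so for every Hausdorff space `E` with at
least two points some two-valued continuous map from `A × Y` to `E` has no continuous extension to
`X × Y`. -/
theorem result : ∃ (D Y : Type) (_ : TopologicalSpace D) (_ : DiscreteTopology D)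
    (_ : TopologicalSpace Y) (A : Set (OnePoint D × {x : ℝ // Irrational x})),
    (CechComplete (OnePoint D × {x : ℝ // Irrational x}) ∧
      LindelofSpace (OnePoint D × {x : ℝ // Irrational x})) ∧
    (IsClosed A ∧ CechComplete A ∧ LindelofSpace A ∧ ParacompactSpace A ∧ PEmbedded.{u} A) ∧
    (T2Space Y ∧ ParacompactSpace Y ∧ ∃ i : Y → ℝ, Continuous i ∧ Function.Injective i) ∧
    ∃ S T : Set ((OnePoint D × {x : ℝ // Irrational x}) × Y), BadPartition.{v} A S T := by
  have hl : LindelofSpace A := by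
    have := lindelof_X
    exact isLindelof_iff_lindelofSpace.1 (A_closed.isLindelof)
  refine ⟨D, ML, inferInstance, inferInstance, inferInstance, A, ⟨cech_X, lindelof_X⟩,
    ⟨A_closed, cech_A, hl, A_closed.isClosedEmbedding_subtypeVal.paracompactSpace,
      pEmbedded_of_closed A_closed⟩,
    ⟨inferInstance, paracompact_ML, ofML, continuous_ofML, fun _ _ h => h⟩, _, _, bad⟩

end Pool.Agent.Results.MP_4b6139_gt.OpenSeparationFails
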